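import Mathlib

namespace Pool.Agent.Results.MP_5e9fbd_co.FourVertices

open Finset SimpleGraph

theorem comp_le (H : SimpleGraph (Fin 4)) [DecidableRel H.Adj] (h : 2 ≤ H.edgeFinset.card) :
    Nat.card H.ConnectedComponent ≤ 2 := by
  obtain ⟨e, he, f, hf, hef⟩ := one_lt_card.1 h
  induction e using Sym2.ind with | _ a b => ?_
  induction f using Sym2.ind with | _ c d => ?_
  rw [mem_edgeFinset, mem_edgeSet] at he hf
  have key : ∀ a b c d : Fin 4, a ≠ b → c ≠ d → s(a, b) ≠ s(c, d) →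
      ∃ x y : Fin 4, ∀ z : Fin 4, z = x ∨ z = y ∨ s(z, x) = s(a, b) ∨ s(z, x) = s(c, d) ∨
        s(z, y) = s(a, b) ∨ s(z, y) = s(c, d) := by decide
  obtain ⟨x, y, hxy⟩ := key a b c d he.ne hf.ne hef
  have adj : ∀ z w : Fin 4, s(z, w) = s(a, b) ∨ s(z, w) = s(c, d) → H.Adj z w := by
    rintro z w (h | h)
    · rw [← mem_edgeSet, h]; exact he
    · rw [← mem_edgeSet, h]; exact hf
  have hs : Function.Surjective
      (fun t : Bool => if t then H.connectedComponentMk x else H.connectedComponentMk y) := by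
    intro C
    induction C using ConnectedComponent.ind with | _ z => ?_
    rcases hxy z with rfl | rfl | h | h | h | h
    · exact ⟨true, rfl⟩
    · exact ⟨false, rfl⟩
    · exact ⟨true, (ConnectedComponent.connectedComponentMk_eq_of_adj (adj _ _ (Or.inl h))).symm⟩
    · exact ⟨true, (ConnectedComponent.connectedComponentMk_eq_of_adj (adj _ _ (Or.inr h))).symm⟩
    · exact ⟨false, (ConnectedComponent.connectedComponentMk_eq_of_adj (adj _ _ (Or.inl h))).symm⟩
    · exact ⟨false, (ConnectedComponent.connectedComponentMk_eq_of_adj (adj _ _ (Or.inr h))).symm⟩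
  have := Nat.card_le_card_of_surjective _ hs
  simpa using this

theorem result : ∃ F : Finset (SimpleGraph (Fin 4)),
    (∀ G ∈ F, ∀ G' ∈ F, G ≠ G' → Nat.card (G ⊓ G').ConnectedComponent ≤ 2) ∧
    ((4 : ℚ) + 1) / 2 ^ 4 * 2 ^ (Nat.choose 4 2) < (F.card : ℚ) := by
  classical
  obtain ⟨T, hT, hTc, S, hS, hSm⟩ : ∃ T : Finset (Sym2 (Fin 4)), (∀ e ∈ T, ¬ e.IsDiag) ∧
      T.card = 6 ∧ ∃ S : Finset (Finset (Sym2 (Fin 4))), S.card = 22 ∧
        ∀ A ∈ S, A ⊆ T ∧ 4 ≤ A.card := by
    refine ⟨{s(0, 1), s(0, 2), s(0, 3), s(1, 2), s(1, 3), s(2, 3)}, by decide, by decide,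
      ({s(0, 1), s(0, 2), s(0, 3), s(1, 2), s(1, 3), s(2, 3)} :
        Finset (Sym2 (Fin 4))).powerset.filter (fun A => 4 ≤ A.card), by decide +kernel, ?_⟩
    intro A hA
    exact ⟨mem_powerset.1 (mem_filter.1 hA).1, (mem_filter.1 hA).2⟩
  have hE : ∀ A ∈ S, (fromEdgeSet (A : Set (Sym2 (Fin 4)))).edgeSet = A := by
    intro A hA
    rw [edgeSet_fromEdgeSet]
    have hA' := (hSm A hA).1
    ext e
    simp only [Set.mem_sdiff, mem_coe]
    exact ⟨fun h => h.1, fun h => ⟨h, hT e (hA' h)⟩⟩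
  refine ⟨S.image (fun A : Finset (Sym2 (Fin 4)) => fromEdgeSet (A : Set (Sym2 (Fin 4)))), ?_, ?_⟩
  · intro G hG G' hG' _
    obtain ⟨A, hA, rfl⟩ := mem_image.1 hG
    obtain ⟨B, hB, rfl⟩ := mem_image.1 hG'
    apply comp_le
    have h1 : A ∩ B ⊆ (fromEdgeSet (A : Set (Sym2 (Fin 4))) ⊓
        fromEdgeSet (B : Set (Sym2 (Fin 4)))).edgeFinset := by
      intro e he
      rw [mem_edgeFinset, edgeSet_inf, hE A hA, hE B hB]
      simpa using he
    refine le_trans ?_ (le_of_le_of_eq (card_le_card h1) (by congr; exact Subsingleton.elim _ _))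
    have h2 := card_union_add_card_inter A B
    have h3 : (A ∪ B).card ≤ T.card := card_le_card (union_subset (hSm A hA).1 (hSm B hB).1)
    have h4 := (hSm A hA).2
    have h5 := (hSm B hB).2
    omega
  · rw [card_image_of_injOn, hS]
    · norm_num [Nat.choose]
    · intro A hA B hB h
      have h1 := hE A hA
      have h2 := hE B hB
      simp only at h
      rw [h, h2] at h1
      exact_mod_cast h1.symm

end Pool.Agent.Results.MP_5e9fbd_co.FourVertices
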